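import Pool.Agent.Zk72.NS.Adv

/-!
# Four arms for some modification: geometry
-/

set_option autoImplicit false

namespace Pool.Agent.Zk62.NS

open H974 Finset H342P H984P H984N H12S H389NS Pool.Agent.Zk36.TT Pool.Agent.W92.DP
open Pool.Agent.Zk72.NS

theorem sd_nn (u v : Vtx) : 0 ≤ sd u v := by
  unfold sd
  exact (abs_nonneg _).trans (le_max_left _ _)

theorem sd_le {u v : Vtx} {k : ℤ} : sd u v ≤ k ↔
    (u.1 - k ≤ v.1 ∧ v.1 ≤ u.1 + k) ∧ (u.2 - k ≤ v.2 ∧ v.2 ≤ u.2 + k) := by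
  unfold sd
  rw [max_le_iff, abs_le, abs_le]
  constructor <;> intro h <;> omega

theorem sd_tri (u v w : Vtx) : sd u w ≤ sd u v + sd v w := by
  have h1 := (sd_le (u := u) (v := v) (k := sd u v)).1 le_rfl
  have h2 := (sd_le (u := v) (v := w) (k := sd v w)).1 le_rfl
  rw [sd_le]
  omega

theorem sd_sym (u v : Vtx) : sd u v = sd v u := by
  apply le_antisymm
  · have h2 := (sd_le (u := v) (v := u) (k := sd v u)).1 le_rfl
    rw [sd_le]
    omega
  · have h2 := (sd_le (u := u) (v := v) (k := sd u v)).1 le_rfl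
    rw [sd_le]
    omega

theorem sd_self (u : Vtx) : sd u u = 0 := by
  unfold sd
  simp

theorem blk_src {v : Vtx} {e : Edg} {k : ℕ} (h : e ∈ blk v k) : sd v (src e) ≤ k := by
  rw [sd_le]
  obtain ⟨x, y, _ | _⟩ := e
  · unfold blk at h
    rw [mem_RE_false] at h
    simp only [src_mk]
    omega
  · unfold blk at h
    rw [mem_RE_true] at h
    simp only [src_mk]
    omega

theorem src_blk {v : Vtx} {e : Edg} {k : ℕ} (h : sd v (src e) + 1 ≤ k) : e ∈ blk v k := by
  have h' := (sd_le (u := v) (v := src e) (k := k - 1)).1 (by omega)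
  obtain ⟨x, y, _ | _⟩ := e
  · simp only [src_mk] at h'
    unfold blk
    rw [mem_RE_false]
    omega
  · simp only [src_mk] at h'
    unfold blk
    rw [mem_RE_true]
    omega

theorem not_blk {v : Vtx} {e : Edg} {k : ℕ} (h : e ∉ blk v k) : (k : ℤ) ≤ sd v (src e) := by
  by_contra hc
  exact h (src_blk (by omega))

theorem blk_sub {v u : Vtx} {k m : ℕ} (h : sd v u + m ≤ k) : blk u m ⊆ blk v k := by
  have h' := (sd_le (u := v) (v := u) (k := k - m)).1 (by omega)
  unfold blk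
  exact RE_subset (by omega) (by omega) (by omega) (by omega)

theorem gm_inj (b : Bool) : Function.Injective (gm b) := by
  intro x y h
  unfold gm at h
  cases b
  · simpa using h
  · simpa using h

theorem gm_mem {b : Bool} {g : Edg} {F : Finset Edg} : gm b g ∈ gd b F ↔ (g ∈ F ↔ b = true) := by
  cases b
  · unfold gm gd
    simp
  · unfold gm gd
    simp

theorem gm_surj (b : Bool) (h : Edg) : ∃ g, gm b g = h := by
  cases b
  · exact ⟨dl.symm h, by unfold gm; simp⟩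
  · exact ⟨h, by unfold gm; simp⟩

theorem gd_cong {b : Bool} {F G : Finset Edg} {T : Set Edg}
    (h : ∀ g, gm b g ∈ T → (g ∈ F ↔ g ∈ G)) : gd b F ∩ T = gd b G ∩ T := by
  ext x
  obtain ⟨g, rfl⟩ := gm_surj b x
  simp only [Set.mem_inter_iff]
  constructor
  · rintro ⟨h1, h2⟩
    exact ⟨by rw [gm_mem] at h1 ⊢; rw [← h g h2]; exact h1, h2⟩
  · rintro ⟨h1, h2⟩
    exact ⟨by rw [gm_mem] at h1 ⊢; rw [h g h2]; exact h1, h2⟩

theorem gm_blk {b : Bool} {v : Vtx} {k : ℕ} {g : Edg} (h : gm b g ∈ blk v k) :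
    g ∈ blk v (k + 1) := by
  cases b
  · have := Pool.Agent.W571.DPad.dls_mem h
    unfold gm at this
    simpa using this
  · have h' : g ∈ blk v k := by
      unfold gm at h
      simpa using h
    exact blk_sub (by rw [sd_self]; push_cast; omega) h'

theorem mem_rg {b : Bool} {v : Vtx} {d k : ℕ} {g : Edg} :
    g ∈ rg b v d k ↔ gm b g ∈ blk v k ∧ gm b g ∉ blk v d := by
  unfold rg
  rw [Finset.mem_filter, Finset.mem_sdiff]
  constructor
  · rintro ⟨_, h⟩
    exact h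
  · intro h
    exact ⟨gm_blk h.1, h⟩

theorem rg_sub (b : Bool) (v : Vtx) (d k : ℕ) : rg b v d k ⊆ blk v (k + 1) := by
  unfold rg
  exact Finset.filter_subset _ _

theorem A4a_cg {c : ℤ × ℤ} {d k : ℕ} {F G : Set Edg}
    (h : F ∩ ↑(blk c k \ blk c d) = G ∩ ↑(blk c k \ blk c d)) : A4a c d k F ↔ A4a c d k G := by
  unfold A4a
  rw [h]

theorem F4_cg {b : Bool} {v : Vtx} {d k : ℕ} {F G : Finset Edg}
    (h : ∀ g ∈ rg b v d k, (g ∈ F ↔ g ∈ G)) : F4 b v d k F ↔ F4 b v d k G := by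
  unfold Pool.Agent.Zk72.NS.F4
  apply A4a_cg
  apply gd_cong
  intro g hg
  apply h
  rw [mem_rg]
  rw [Finset.mem_coe, Finset.mem_sdiff] at hg
  exact hg

theorem F4_lc (b : Bool) (v : Vtx) (d k : ℕ) (F : Finset Edg) :
    F4 b v d k F ↔ F4 b v d k (F ∩ rg b v d k) := by
  apply F4_cg
  intro g hg
  rw [Finset.mem_inter]
  exact ⟨fun h => ⟨h, hg⟩, fun h => h.1⟩

theorem F4_mono (hM : S_MON) {b : Bool} {v : Vtx} {d d' k' k : ℕ} {F : Finset Edg}
    (h1 : d ≤ d') (h2 : d' ≤ k') (h3 : k' ≤ k) (h : F4 b v d k F) : F4 b v d' k' F :=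
  hM v d d' k' k _ h1 h2 h3 h

/-- the region of the pivotal edges -/
noncomputable def Wr (b : Bool) (v : Vtx) (d k : ℕ) : Finset Edg :=
  (blk v (k + 1)).filter (fun g => 16 * (d : ℤ) ≤ sd v (src (gm b g)) ∧
    sd v (src (gm b g)) ≤ (k / 4 : ℕ))

/-- the event at a pivotal edge -/
def Dv (b : Bool) (v : Vtx) (d k : ℕ) (f : Edg) (U B : Finset Edg) : Prop :=
  Sw (F4 b v d ((sd v (src (gm b f))).toNat / 2)) U B ∧
    (Sw (F4 b (src (gm b f)) 1 ((sd v (src (gm b f))).toNat / 4)) U B ∧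
    Sw (F4 b v (2 * (sd v (src (gm b f))).toNat) k) U B)

/-- the deterministic step -/
theorem det_step (hC : S_CHN) (hM : S_MON) (hP : S_PIV4) {b : Bool} {v : Vtx} {d k : ℕ}
    (hd : 1 ≤ d) (hk : 128 * d ≤ k) {U B : Finset Edg} (h : Sw (F4 b v d k) U B) :
    F4 b v (16 * d + 2) (k / 4 - 2) B ∨ ∃ f ∈ Wr b v d k, f ∈ U ∧ Dv b v d k f U B := by
  obtain ⟨F, hF, hA⟩ := h
  rcases hC U B F (Wr b v d k) (F4 b v d k) hF hA with h1 | ⟨F₁, f, g1, g2, g3, g4, g5⟩
  · left
    have h2 := F4_mono hM (d' := 16 * d + 2) (k' := k / 4 - 2) (by omega) (by omega) (by omega) h1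
    refine (F4_cg ?_).1 h2
    intro g hg
    rw [mem_rg] at hg
    have e1 := blk_src hg.1
    have e2 := not_blk hg.2
    have hgW : g ∈ Wr b v d k := by
      unfold Wr
      rw [Finset.mem_filter]
      refine ⟨gm_blk (blk_sub (v := v) (u := v) (m := k / 4 - 2) (k := k)
        (by rw [sd_self]; omega) hg.1), ?_, ?_⟩
      · push_cast at e2
        omega
      · omega
    rw [Finset.mem_union, Finset.mem_sdiff, Finset.mem_inter]
    constructor
    · rintro (⟨_, h⟩ | ⟨h, _⟩)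
      · exact absurd hgW h
      · exact h
    · intro h
      exact Or.inr ⟨h, hgW⟩
  · right
    refine ⟨f, g2, g3, ?_⟩
    unfold Wr at g2
    rw [Finset.mem_filter] at g2
    obtain ⟨-, g6, g7⟩ := g2
    set u := src (gm b f) with hu
    have hs0 := sd_nn v u
    obtain ⟨s, hs⟩ : ∃ s : ℕ, (s : ℤ) = sd v u := ⟨(sd v u).toNat, by omega⟩
    have hst : (sd v u).toNat = s := by omega
    unfold Dv
    rw [← hu, hst]
    rw [← hs] at g6 g7
    refine ⟨⟨F₁, g1, ?_⟩, ⟨F₁, g1, ?_⟩, ⟨F₁, g1, ?_⟩⟩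
    · exact F4_mono hM le_rfl (by omega) (by omega) g4
    · unfold Pool.Agent.Zk72.NS.F4
      rw [hu]
      refine hP (gd b F₁) (gd b (flip f F₁)) (gm b f) v d k (s / 4) (by omega) ?_ g4 g5 ?_ ?_
      · intro h hne
        obtain ⟨g, rfl⟩ := gm_surj b h
        have hgf : g ≠ f := fun h => hne (by rw [h])
        rw [gm_mem, gm_mem, mem_flip_ne hgf]
      · rw [← hu, ← hs]
        push_cast
        omega
      · rw [← hu, ← hs]
        push_cast
        omega
    · exact F4_mono hM (by omega) (by omega) le_rfl g4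

theorem Wr_sub (b : Bool) (v : Vtx) (d k : ℕ) : Wr b v d k ⊆ blk v (k + 1) := by
  unfold Wr
  exact Finset.filter_subset _ _

end Pool.Agent.Zk62.NS
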