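import Pool.Agent.Zk62.NS.Geo
import Pool.Agent.Zk72.NS.QA
import Pool.Agent.H984R4.NP.SumB

/-!
# Four arms for some modification: the recursion
-/

set_option autoImplicit false

namespace Pool.Agent.Zk62.NS

open H974 Finset H342P H984P H984N H12S H389NS Pool.Agent.Zk36.TT Pool.Agent.W92.DP
open Pool.Agent.Zk72.NS

theorem blk_mn {v : Vtx} {j k : ℕ} (h : j ≤ k) : blk v j ⊆ blk v k := by
  unfold blk
  exact RE_subset (by omega) (by omega) (by omega) (by omega)

theorem edg_ext {e f : Edg} (h1 : src e = src f) (h2 : e.2.2 = f.2.2) : e = f := by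
  obtain ⟨x, y, b⟩ := e
  obtain ⟨x', y', b'⟩ := f
  simp only [src_mk, Prod.mk.injEq] at h1 h2 ⊢
  exact ⟨h1.1, h1.2, h2⟩

/-- the sum over the edges -/
theorem sum_edges {a : ℝ} (ha : 0 ≤ a) (ha1 : a < 2) (b : Bool) (v : Vtx) (N : ℕ) {n : ℝ}
    (hn : 1 ≤ n) (hN : ((2 * N : ℕ) : ℝ) ≤ n) (X : Finset Edg)
    (hX : ∀ f ∈ X, 1 ≤ sd v (src (gm b f)) ∧ sd v (src (gm b f)) ≤ N) :
    ∑ f ∈ X, ((sd v (src (gm b f)) : ℤ) : ℝ) ^ (-a) ≤
      2 * (4 * (1 + 1 / (1 - a / 2)) ^ 2 * n ^ (2 - a)) := by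
  classical
  have b0 : 0 ≤ a / 2 := by linarith
  have b1 : a / 2 < 1 := by linarith
  have b2 : 0 < 1 - a / 2 := by linarith
  set J1 := Finset.Icc (v.1 - N) (v.1 + N) with hJ1
  set J2 := Finset.Icc (v.2 - N) (v.2 + N) with hJ2
  have s1 := sumb_one b0 b1 hn (2 * N) hN v.1 J1 (by
    intro l hl
    rw [hJ1, Finset.mem_Icc] at hl
    rw [abs_le]
    push_cast
    omega)
  have s2 := sumb_one b0 b1 hn (2 * N) hN v.2 J2 (by
    intro l hl
    rw [hJ2, Finset.mem_Icc] at hl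
    rw [abs_le]
    push_cast
    omega)
  have p2 : 0 ≤ ∑ l ∈ J2, ph 1 (a / 2) |v.2 - l| :=
    Finset.sum_nonneg fun _ _ => ph_nonneg zero_le_one _
  have hnp : (0 : ℝ) < n := by linarith
  have hbox : ∑ u ∈ J1 ×ˢ J2, (if v = u then (0:ℝ) else ((sd v u : ℤ) : ℝ) ^ (-a)) ≤
      4 * (1 + 1 / (1 - a / 2)) ^ 2 * n ^ (2 - a) := by
    calc ∑ u ∈ J1 ×ˢ J2, (if v = u then (0:ℝ) else ((sd v u : ℤ) : ℝ) ^ (-a))
        ≤ ∑ u ∈ J1 ×ˢ J2, ph 1 (a / 2) |v.1 - u.1| * ph 1 (a / 2) |v.2 - u.2| :=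
          Finset.sum_le_sum fun u _ => sumb_key ha v u
      _ = (∑ x ∈ J1, ph 1 (a / 2) |v.1 - x|) * ∑ y ∈ J2, ph 1 (a / 2) |v.2 - y| := by
          rw [Finset.sum_product, Finset.sum_mul_sum]
      _ ≤ (2 * ((1 + 1 / (1 - a / 2)) * n ^ (1 - a / 2))) *
          (2 * ((1 + 1 / (1 - a / 2)) * n ^ (1 - a / 2))) :=
          mul_le_mul s1 s2 p2 (by positivity)
      _ = 4 * (1 + 1 / (1 - a / 2)) ^ 2 * (n ^ (1 - a / 2) * n ^ (1 - a / 2)) := by ring
      _ = 4 * (1 + 1 / (1 - a / 2)) ^ 2 * n ^ (2 - a) := by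
          rw [← Real.rpow_add hnp]
          congr 2
          ring
  have hnn : ∀ u : Vtx, 0 ≤ (if v = u then (0:ℝ) else ((sd v u : ℤ) : ℝ) ^ (-a)) := by
    intro u
    split_ifs
    · exact le_rfl
    · exact Real.rpow_nonneg (by exact_mod_cast sd_nn v u) _
  have hinj : ∑ f ∈ X, ((sd v (src (gm b f)) : ℤ) : ℝ) ^ (-a) ≤
      ∑ z ∈ (J1 ×ˢ J2) ×ˢ (Finset.univ : Finset Bool),
        (if v = z.1 then (0:ℝ) else ((sd v z.1 : ℤ) : ℝ) ^ (-a)) := by
    have e1 : ∑ f ∈ X, ((sd v (src (gm b f)) : ℤ) : ℝ) ^ (-a) =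
        ∑ z ∈ X.image (fun f => (src (gm b f), (gm b f).2.2)),
          (if v = z.1 then (0:ℝ) else ((sd v z.1 : ℤ) : ℝ) ^ (-a)) := by
      rw [Finset.sum_image]
      · refine Finset.sum_congr rfl fun f hf => ?_
        have h1 := (hX f hf).1
        rw [if_neg]
        intro hc
        simp only at hc
        rw [← hc, sd_self] at h1
        omega
      · intro x _ y _ hxy
        simp only [Prod.mk.injEq] at hxy
        exact gm_inj b (edg_ext hxy.1 hxy.2)
    rw [e1]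
    apply Finset.sum_le_sum_of_subset_of_nonneg
    · intro z hz
      obtain ⟨f, hf, rfl⟩ := Finset.mem_image.1 hz
      have h1 := sd_le.1 (hX f hf).2
      rw [Finset.mem_product, Finset.mem_product, hJ1, hJ2, Finset.mem_Icc, Finset.mem_Icc]
      exact ⟨h1, Finset.mem_univ _⟩
    · intro z _ _
      exact hnn z.1
  refine hinj.trans ?_
  rw [Finset.sum_product]
  simp only [Finset.sum_const, Finset.card_univ, Fintype.card_bool, nsmul_eq_mul]
  rw [← Finset.mul_sum]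
  push_cast
  linarith

/-- the region of the event at a pivotal edge -/
noncomputable def Tv (b : Bool) (v : Vtx) (d k : ℕ) (f : Edg) : Finset Edg :=
  rg b v d ((sd v (src (gm b f))).toNat / 2) ∪
    (rg b (src (gm b f)) 1 ((sd v (src (gm b f))).toNat / 4) ∪
      rg b v (2 * (sd v (src (gm b f))).toNat) k)

theorem disj_of {b : Bool} {v v' : Vtx} {d k d' k' : ℕ}
    (h : ∀ e : Edg, e ∈ blk v k → e ∉ blk v d → e ∈ blk v' k' → e ∉ blk v' d' → False) :
    Disjoint (rg b v d k) (rg b v' d' k') := by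
  rw [Finset.disjoint_left]
  intro g h1 h2
  rw [mem_rg] at h1 h2
  exact h _ h1.1 h1.2 h2.1 h2.2

theorem Dv_prob {b : Bool} {v : Vtx} {d k : ℕ} (hd : 1 ≤ d) (hk : 128 * d ≤ k) {ε : ℝ}
    {S : Finset Edg} (hS : blk v (k + 1) ⊆ S) {f : Edg} (hf : f ∈ Wr b v d k) {s : ℕ}
    (hs : (s : ℤ) = sd v (src (gm b f))) :
    (Tv b v d k f ⊆ S ∧ f ∉ Tv b v d k f ∧ Lc (Tv b v d k f) (Dv b v d k f)) ∧
    (16 * d ≤ s ∧ s ≤ k / 4) ∧ blk (src (gm b f)) (s / 4 + 1) ⊆ S ∧
    Q ε S (Dv b v d k f) = Q ε S (Sw (F4 b v d (s / 2))) *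
      (Q ε S (Sw (F4 b (src (gm b f)) 1 (s / 4))) * Q ε S (Sw (F4 b v (2 * s) k))) := by
  unfold Wr at hf
  rw [Finset.mem_filter] at hf
  obtain ⟨hf0, hf1, hf2⟩ := hf
  have hst : (sd v (src (gm b f))).toNat = s := by omega
  unfold Tv Dv
  rw [hst]
  set u := src (gm b f) with hu
  rw [← hs] at hf1 hf2
  have t1 : rg b v d (s / 2) ⊆ S :=
    (rg_sub _ _ _ _).trans ((blk_mn (by omega)).trans hS)
  have t2' : blk u (s / 4 + 1) ⊆ S := by
    refine (blk_sub (v := v) (u := u) (k := k + 1) ?_).trans hS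
    rw [← hs]
    push_cast
    omega
  have t2 : rg b u 1 (s / 4) ⊆ S := (rg_sub _ _ _ _).trans t2'
  have t3 : rg b v (2 * s) k ⊆ S := (rg_sub _ _ _ _).trans hS
  have hss : sd u v = s := by rw [sd_sym]; omega
  have d23 : Disjoint (rg b u 1 (s / 4)) (rg b v (2 * s) k) := by
    apply disj_of
    intro e h1 h2 h3 h4
    have g1 := blk_src h1
    have g4 := not_blk h4
    have g5 := sd_tri v u (src e)
    push_cast at g1 g4
    omega
  have d12 : Disjoint (rg b v d (s / 2)) (rg b u 1 (s / 4)) := by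
    apply disj_of
    intro e h1 h2 h3 h4
    have g1 := blk_src h1
    have g3 := blk_src h3
    have g5 := sd_tri v (src e) u
    have g6 := sd_sym u (src e)
    push_cast at g1 g3
    omega
  have d13 : Disjoint (rg b v d (s / 2)) (rg b v (2 * s) k) := by
    apply disj_of
    intro e h1 h2 h3 h4
    have g1 := blk_src h1
    have g4 := not_blk h4
    push_cast at g1 g4
    omega
  have l1 : Lc (rg b v d (s / 2)) (Sw (F4 b v d (s / 2))) := Lc_Sw (F4_lc _ _ _ _)
  have l2 : Lc (rg b u 1 (s / 4)) (Sw (F4 b u 1 (s / 4))) := Lc_Sw (F4_lc _ _ _ _)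
  have l3 : Lc (rg b v (2 * s) k) (Sw (F4 b v (2 * s) k)) := Lc_Sw (F4_lc _ _ _ _)
  have l23 := Lc_and l2 l3
  refine ⟨⟨Finset.union_subset t1 (Finset.union_subset t2 t3), ?_, Lc_and l1 l23⟩, ⟨by omega,
    by omega⟩, t2', ?_⟩
  · rw [Finset.mem_union, Finset.mem_union, not_or, not_or]
    refine ⟨?_, ?_, ?_⟩
    · intro h
      have g1 := blk_src (mem_rg.1 h).1
      rw [← hu, ← hs] at g1
      push_cast at g1
      omega
    · intro h
      have g1 := not_blk (mem_rg.1 h).2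
      rw [← hu, sd_self] at g1
      omega
    · intro h
      have g1 := not_blk (mem_rg.1 h).2
      rw [← hu, ← hs] at g1
      push_cast at g1
      omega
  · rw [Q_and t1 (Finset.union_subset t2 t3) (Finset.disjoint_union_right.2 ⟨d12, d13⟩) l1 l23,
      Q_and t2 t3 d23 l2 l3]

theorem F4_P {Ca Cd : ℝ} (h0a : 0 < Ca) (h0d : 0 < Cd)
    (hA : ∀ (c : ℤ × ℤ) (d k : ℕ), 1 ≤ d → d ≤ k →
      ∀ S : Finset Edg, blk c k ⊆ S → PQ (1/2) S (fun F => A4a c d k ↑F) ≤
        Ca * ((d:ℝ) / k) ^ (5/4 : ℝ))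
    (hD : ∀ (c : ℤ × ℤ) (d k : ℕ), 1 ≤ d → d ≤ k →
      ∀ S : Finset Edg, blk c (k + 1) ⊆ S → PQ (1/2) S (fun F => A4d c d k ↑F) ≤
        Cd * ((d:ℝ) / k) ^ (5/4 : ℝ)) (b : Bool) {v : Vtx} {d k : ℕ} (hd : 1 ≤ d) (hk : d ≤ k)
    {S : Finset Edg} (hS : blk v (k + 1) ⊆ S) :
    P S (F4 b v d k) ≤ (Ca + Cd) * ((d:ℝ) / k) ^ (5/4 : ℝ) := by
  have hx : 0 ≤ ((d:ℝ) / k) ^ (5/4 : ℝ) := by positivity
  cases b
  · have h := hD v d k hd hk S hS
    have h' : P S (F4 false v d k) ≤ Cd * ((d:ℝ) / k) ^ (5/4 : ℝ) := h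
    nlinarith
  · have h := hA v d k hd hk S ((blk_mn (by omega)).trans hS)
    have h' : P S (F4 true v d k) ≤ Ca * ((d:ℝ) / k) ^ (5/4 : ℝ) := h
    nlinarith

theorem pw54 {x y : ℝ} (hx : 0 ≤ x) (h : x ≤ y) : x ^ (5/4 : ℝ) ≤ y ^ (5/4 : ℝ) :=
  Real.rpow_le_rpow hx h (by norm_num)

/-- REC4 -/
theorem t_REC4 (hA : St_Aa) (hd : St_Ad) (h1 : S_CHN) (h2 : S_MON) (h3 : S_PIV4) : S_A4U := by
  obtain ⟨Ca, hCa, hA'⟩ := hA
  obtain ⟨Cd, hCd, hD'⟩ := hd
  set C0 : ℝ := (Ca + Cd) * 144 ^ (5/4 : ℝ) with hC0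
  set K : ℝ := 128 ^ (5/4 : ℝ) + 2 * C0 with hK
  set M : ℝ := 48 ^ (5/4 : ℝ) * (2 * (4 * (1 + 1 / (1 - (5/4:ℝ) / 2)) ^ 2)) with hM
  have hC00 : 0 < C0 := by positivity
  have h128 : (1:ℝ) ≤ 128 ^ (5/4 : ℝ) := Real.one_le_rpow (by norm_num) (by norm_num)
  have hK1 : 1 ≤ K := by linarith
  have hK0 : 0 < K := by linarith
  have hM0 : 0 < M := by positivity
  refine ⟨K, 1 / (2 * K ^ 2 * M), hK1, by positivity, ?_⟩
  intro ε b v d k S h0 hε1 hd1 hdk hεk hS
  have main : ∀ n : ℕ, ∀ (v : Vtx) (d k : ℕ), k - d = n → 1 ≤ d → d ≤ k →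
      ε * (k : ℝ) ^ (3 / 4 : ℝ) ≤ 1 / (2 * K ^ 2 * M) → blk v (k + 1) ⊆ S →
      Q ε S (Sw (F4 b v d k)) ≤ K * ((d : ℝ) / k) ^ (5 / 4 : ℝ) := by
    intro n
    induction n using Nat.strong_induction_on with
    | _ n ih =>
      intro v d k hn hd1 hdk hεk hS
      have hdR : (1:ℝ) ≤ d := by exact_mod_cast hd1
      have hd0 : (0:ℝ) < d := by linarith
      have hdkR : (d:ℝ) ≤ k := by exact_mod_cast hdk
      have hk0 : (0:ℝ) < k := by linarith
      rcases Nat.lt_or_ge k (128 * d) with hlt | hge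
      · have g1 : (1:ℝ) / 128 ≤ (d:ℝ) / k := by
          rw [div_le_div_iff₀ (by norm_num) hk0]
          have : (k:ℝ) ≤ 128 * d := by exact_mod_cast hlt.le
          linarith
        have g2 := pw54 (by norm_num : (0:ℝ) ≤ 1 / 128) g1
        rw [Real.div_rpow (by norm_num) (by norm_num), Real.one_rpow] at g2
        have g3 : 1 ≤ 128 ^ (5/4 : ℝ) * ((d:ℝ) / k) ^ (5/4 : ℝ) := by
          have := mul_le_mul_of_nonneg_left g2 (by positivity : (0:ℝ) ≤ 128 ^ (5/4 : ℝ))
          rwa [mul_one_div_cancel (by positivity)] at this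
        have g4 : 0 ≤ ((d:ℝ) / k) ^ (5/4 : ℝ) := by positivity
        calc Q ε S (Sw (F4 b v d k)) ≤ 1 := Q_le_one h0 hε1 _ _
          _ ≤ _ := g3
          _ ≤ _ := by
            apply mul_le_mul_of_nonneg_right _ g4
            linarith
      · -- the step
        set x : ℝ := ((d:ℝ) / k) ^ (5/4 : ℝ) with hx
        have hx0 : 0 ≤ x := by positivity
        have hstep := Q_step (A := Sw (F4 b v d k)) (C := F4 b v (16 * d + 2) (k / 4 - 2))
          (D := Dv b v d k) (T := Tv b v d k) (W := Wr b v d k) h0 hε1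
          ((Wr_sub _ _ _ _).trans hS)
          (by
            intro f hf
            obtain ⟨s, hs⟩ : ∃ s : ℕ, (s : ℤ) = sd v (src (gm b f)) :=
              ⟨(sd v (src (gm b f))).toNat, by have := sd_nn v (src (gm b f)); omega⟩
            exact (Dv_prob (ε := ε) hd1 hge hS hf hs).1)
          (by
            intro U B _ _ h
            exact det_step h1 h2 h3 hd1 hge h)
        have hP : P S (F4 b v (16 * d + 2) (k / 4 - 2)) ≤ C0 * x := by
          have g1 := F4_P hCa hCd hA' hD' b (v := v) (d := 16 * d + 2) (k := k / 4 - 2) (by omega)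
            (by omega) (S := S) ((blk_mn (by omega)).trans hS)
          refine g1.trans ?_
          rw [hC0, mul_assoc]
          apply mul_le_mul_of_nonneg_left _ (by positivity)
          rw [hx, ← Real.mul_rpow (by norm_num) (by positivity)]
          apply pw54 (by positivity)
          have g2 : (k:ℝ) ≤ 8 * ((k / 4 - 2 : ℕ) : ℝ) := by
            have : k ≤ 8 * (k / 4 - 2) := by omega
            exact_mod_cast this
          have g3 : (0:ℝ) < ((k / 4 - 2 : ℕ) : ℝ) := by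
            have : 0 < k / 4 - 2 := by omega
            exact_mod_cast this
          rw [mul_div_assoc', div_le_div_iff₀ g3 hk0]
          push_cast
          nlinarith
        have hDf : ∀ f ∈ Wr b v d k, ε * Q ε S (Dv b v d k f) ≤
            (ε * (K ^ 3 * (48 ^ (5/4 : ℝ) * x))) *
              ((sd v (src (gm b f)) : ℤ) : ℝ) ^ (-(5/4 : ℝ)) := by
          intro f hf
          obtain ⟨s, hs⟩ : ∃ s : ℕ, (s : ℤ) = sd v (src (gm b f)) :=
            ⟨(sd v (src (gm b f))).toNat, by have := sd_nn v (src (gm b f)); omega⟩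
          obtain ⟨-, ⟨g1, g2⟩, g3, g4⟩ := Dv_prob (ε := ε) hd1 hge hS hf hs
          rw [g4, ← hs, Int.cast_natCast, mul_assoc]
          apply mul_le_mul_of_nonneg_left _ h0
          have hsm : ∀ j : ℕ, j ≤ k → ε * (j : ℝ) ^ (3 / 4 : ℝ) ≤ 1 / (2 * K ^ 2 * M) := by
            intro j hj
            refine le_trans ?_ hεk
            apply mul_le_mul_of_nonneg_left _ h0
            exact Real.rpow_le_rpow (by positivity) (by exact_mod_cast hj) (by norm_num)
          have i1 := ih (s / 2 - d) (by omega) v d (s / 2) rfl hd1 (by omega) (hsm _ (by omega))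
            ((blk_mn (by omega)).trans hS)
          have i2 := ih (s / 4 - 1) (by omega) (src (gm b f)) 1 (s / 4) rfl le_rfl (by omega)
            (hsm _ (by omega)) g3
          have i3 := ih (k - 2 * s) (by omega) v (2 * s) k rfl (by omega) (by omega)
            (hsm _ le_rfl) hS
          have hs0 : (0:ℝ) < s := by
            have : 0 < s := by omega
            exact_mod_cast this
          have j1 : (((d : ℕ) : ℝ) / ((s / 2 : ℕ) : ℝ)) ^ (5/4 : ℝ) ≤ (3 * d / s) ^ (5/4 : ℝ) := by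
            apply pw54 (by positivity)
            have q1 : (s:ℝ) ≤ 3 * ((s / 2 : ℕ) : ℝ) := by
              have : s ≤ 3 * (s / 2) := by omega
              exact_mod_cast this
            have q2 : (0:ℝ) < ((s / 2 : ℕ) : ℝ) := by
              have : 0 < s / 2 := by omega
              exact_mod_cast this
            rw [div_le_div_iff₀ q2 hs0]
            nlinarith
          have j2 : (((1 : ℕ) : ℝ) / ((s / 4 : ℕ) : ℝ)) ^ (5/4 : ℝ) ≤ (8 / s) ^ (5/4 : ℝ) := by
            apply pw54 (by positivity)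
            have q1 : (s:ℝ) ≤ 8 * ((s / 4 : ℕ) : ℝ) := by
              have : s ≤ 8 * (s / 4) := by omega
              exact_mod_cast this
            have q2 : (0:ℝ) < ((s / 4 : ℕ) : ℝ) := by
              have : 0 < s / 4 := by omega
              exact_mod_cast this
            rw [div_le_div_iff₀ q2 hs0]
            push_cast
            linarith
          have k1 := i1.trans (mul_le_mul_of_nonneg_left j1 hK0.le)
          have k2 := i2.trans (mul_le_mul_of_nonneg_left j2 hK0.le)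
          have hnn := Q_nonneg h0 hε1 S
          have hprod : Q ε S (Sw (F4 b v d (s / 2))) *
              (Q ε S (Sw (F4 b (src (gm b f)) 1 (s / 4))) * Q ε S (Sw (F4 b v (2 * s) k))) ≤
              (K * (3 * d / s) ^ (5/4 : ℝ)) * ((K * (8 / s) ^ (5/4 : ℝ)) *
                (K * (((2 * s : ℕ) : ℝ) / k) ^ (5 / 4 : ℝ))) :=
            mul_le_mul k1 (mul_le_mul k2 i3 (hnn _) (by positivity))
              (mul_nonneg (hnn _) (hnn _)) (by positivity)
          refine hprod.trans (le_of_eq ?_)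
          have e1 : (3 * (d:ℝ) / s) ^ (5/4 : ℝ) * ((8 / (s:ℝ)) ^ (5/4 : ℝ) *
              (((2 * s : ℕ) : ℝ) / k) ^ (5 / 4 : ℝ)) =
              48 ^ (5/4 : ℝ) * x * (s:ℝ) ^ (-(5/4 : ℝ)) := by
            rw [hx, Real.rpow_neg hs0.le, ← Real.inv_rpow hs0.le,
              ← Real.mul_rpow (by positivity) (by positivity),
              ← Real.mul_rpow (by positivity) (by positivity),
              ← Real.mul_rpow (by positivity) (by positivity),
              ← Real.mul_rpow (by positivity) (by positivity)]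
            congr 1
            push_cast
            field_simp
            ring
          calc (K * (3 * (d:ℝ) / s) ^ (5/4 : ℝ)) * ((K * (8 / (s:ℝ)) ^ (5/4 : ℝ)) *
                (K * (((2 * s : ℕ) : ℝ) / k) ^ (5 / 4 : ℝ)))
              = K ^ 3 * ((3 * (d:ℝ) / s) ^ (5/4 : ℝ) * ((8 / (s:ℝ)) ^ (5/4 : ℝ) *
                (((2 * s : ℕ) : ℝ) / k) ^ (5 / 4 : ℝ))) := by ring
            _ = K ^ 3 * (48 ^ (5/4 : ℝ) * x) * (s:ℝ) ^ (-(5/4 : ℝ)) := by rw [e1]; ring
        have hsum := Finset.sum_le_sum hDf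
        have e0 : ∑ f ∈ Wr b v d k, (ε * (K ^ 3 * (48 ^ (5/4 : ℝ) * x))) *
              ((sd v (src (gm b f)) : ℤ) : ℝ) ^ (-(5/4 : ℝ)) =
            (ε * (K ^ 3 * (48 ^ (5/4 : ℝ) * x))) *
              ∑ f ∈ Wr b v d k, ((sd v (src (gm b f)) : ℤ) : ℝ) ^ (-(5/4 : ℝ)) :=
          (Finset.mul_sum _ _ _).symm
        rw [e0] at hsum
        have hk1 : (1:ℝ) ≤ k := by linarith
        have hsE := sum_edges (a := 5/4) (by norm_num) (by norm_num) b v (k / 4) hk1 (by
          have : 2 * (k / 4) ≤ k := by omega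
          exact_mod_cast this) (Wr b v d k) (by
          intro f hf
          unfold Wr at hf
          rw [Finset.mem_filter] at hf
          omega)
        have hcoef : 0 ≤ ε * (K ^ 3 * (48 ^ (5/4 : ℝ) * x)) := by positivity
        have hfin := hsum.trans (mul_le_mul_of_nonneg_left hsE hcoef)
        have e2 : (2:ℝ) - 5/4 = 3/4 := by norm_num
        rw [e2] at hfin
        have e3 : (ε * (K ^ 3 * (48 ^ (5/4 : ℝ) * x))) *
            (2 * (4 * (1 + 1 / (1 - (5/4:ℝ) / 2)) ^ 2 * (k:ℝ) ^ (3/4 : ℝ))) =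
            (ε * (k:ℝ) ^ (3/4 : ℝ)) * (K ^ 3 * M * x) := by
          rw [hM]; ring
        rw [e3] at hfin
        have e4 : (ε * (k:ℝ) ^ (3/4 : ℝ)) * (K ^ 3 * M * x) ≤
            1 / (2 * K ^ 2 * M) * (K ^ 3 * M * x) :=
          mul_le_mul_of_nonneg_right hεk (by positivity)
        have e5 : 1 / (2 * K ^ 2 * M) * (K ^ 3 * M * x) = K / 2 * x := by
          field_simp
        rw [e5] at e4
        have e6 : C0 * x + K / 2 * x ≤ K * x := by
          have : C0 ≤ K / 2 := by linarith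
          nlinarith
        linarith
  exact main _ v d k rfl hd1 hdk hεk hS

end Pool.Agent.Zk62.NS
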